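import Mathlib

/-!
# Lattices of diagonal sublattices over a finitely generated variety

For a lattice `L` let `Δ(L)` be the lattice of the sublattices of `L × L` that contain
the diagonal.  We show: if `V` is the variety generated by a finite lattice `K`, then there is
a lattice identity that fails in some lattice but holds in `Δ(L)` for all `L ∈ V`.
For `K = M₃` this gives a variety `V ≠ 𝒟` such that `{Δ(L) : L ∈ V}` does not generate the variety
of all lattices.

The reason is the following.  For a diagonal sublattice `S` put `S⁺ = {(x, y) ∈ S : x ≤ y}`.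
For any two homomorphisms `α, β : L → K` the map
`S ↦ {(α x, β y) : (x, y) ∈ S⁺}` is a lattice homomorphism from `Δ(L)` to the finite lattice
`Sub(K × K)`; if `L` is a sublattice of a finite power of `K`, these maps, together with the
analogous maps for `S⁻`, separate the elements of `Δ(L)`.
-/

namespace Pool.Agent.Results.MP_bb8c7b_al.DiagonalSublattices

universe u v w

/-- Lattice terms in the variables `x_i`, `i : ι`. -/
inductive LTerm (ι : Type) : Type
  | var : ι → LTerm ι
  | sup : LTerm ι → LTerm ι → LTerm ι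
  | inf : LTerm ι → LTerm ι → LTerm ι

/-- The value of a lattice term under an assignment. -/
def LTerm.eval {ι : Type} {L : Type u} [Lattice L] (a : ι → L) : LTerm ι → L
  | .var i => a i
  | .sup s t => s.eval a ⊔ t.eval a
  | .inf s t => s.eval a ⊓ t.eval a

/-- The identity `s ≈ t` holds in the lattice `L`. -/
def HoldsIn (L : Type u) [Lattice L] {ι : Type} (s t : LTerm ι) : Prop :=
  ∀ a : ι → L, s.eval a = t.eval a

/-- `L` belongs to the lattice variety defined by the set `E` of identities. -/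
def InVariety (E : Set (LTerm ℕ × LTerm ℕ)) (L : Type u) [Lattice L] : Prop :=
  ∀ e ∈ E, HoldsIn L e.1 e.2

/-- The set of all identities that hold in `K`; it defines the variety generated by `K`. -/
def identitiesOf (K : Type v) [Lattice K] : Set (LTerm ℕ × LTerm ℕ) :=
  {e | HoldsIn K e.1 e.2}

/-- `Δ(L)`: the diagonal sublattices of `L × L`. -/
def Diag (L : Type u) [Lattice L] : Type u :=
  {S : Sublattice (L × L) // ∀ x : L, (x, x) ∈ S}

/-- `Δ(L)` is ordered by inclusion; the meet of two diagonal sublattices is their intersection and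
their join is the sublattice generated by their union. -/
instance (L : Type u) [Lattice L] : Lattice (Diag L) :=
  Subtype.lattice (P := fun S : Sublattice (L × L) => ∀ x : L, (x, x) ∈ S)
    (fun S T hS _ x => (le_sup_left : S ≤ S ⊔ T) (hS x)) (fun _ _ hS hT x => ⟨hS x, hT x⟩)

/-! ### Terms -/

namespace LTerm

variable {ι κ : Type}

/-- renaming of variables -/
def rename (g : ι → κ) : LTerm ι → LTerm κ
  | var i => var (g i)
  | sup s t => sup (s.rename g) (t.rename g)
  | inf s t => inf (s.rename g) (t.rename g)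

theorem eval_rename {L : Type u} [Lattice L] (g : ι → κ) (a : κ → L) (t : LTerm ι) :
    (t.rename g).eval a = t.eval (fun i => a (g i)) := by
  induction t with
  | var i => rfl
  | sup s t hs ht => simp only [rename, eval, hs, ht]
  | inf s t hs ht => simp only [rename, eval, hs, ht]

theorem eval_map {L : Type u} {M : Type v} [Lattice L] [Lattice M] (f : LatticeHom L M)
    (a : ι → L) (t : LTerm ι) : f (t.eval a) = t.eval (fun i => f (a i)) := by
  induction t with
  | var i => rfl
  | sup s t hs ht => simp only [eval, map_sup, hs, ht]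
  | inf s t hs ht => simp only [eval, map_inf, hs, ht]

end LTerm

open LTerm

theorem holdsIn_of_separating {L : Type u} [Lattice L] {M : Type v} [Lattice M] {J : Type w}
    (f : J → LatticeHom L M) (hf : ∀ x y : L, (∀ j, f j x = f j y) → x = y) {s t : LTerm ℕ}
    (h : HoldsIn M s t) : HoldsIn L s t := by
  intro a
  apply hf
  intro j
  rw [eval_map, eval_map]
  exact h _

theorem holdsIn_of_surjective {L : Type u} [Lattice L] {M : Type v} [Lattice M]
    (f : LatticeHom L M) (hf : Function.Surjective f) {s t : LTerm ℕ}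
    (h : HoldsIn L s t) : HoldsIn M s t := by
  intro a
  choose b hb using fun i => hf (a i)
  have := congrArg f (h b)
  rw [eval_map, eval_map] at this
  simp only [hb] at this
  exact this

/-! ### The pigeonhole identity -/

/-- the meet of the terms in a list and a term -/
def bigInf {ι : Type} (l : List (LTerm ι)) (t : LTerm ι) : LTerm ι := l.foldr inf t

/-- the join of the terms in a list and a term -/
def bigSup {ι : Type} (l : List (LTerm ι)) (t : LTerm ι) : LTerm ι := l.foldr sup t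

theorem le_bigInf {ι : Type} {L : Type u} [Lattice L] (a : ι → L) (l : List (LTerm ι))
    (t : LTerm ι) (z : L) :
    z ≤ (bigInf l t).eval a ↔ z ≤ t.eval a ∧ ∀ r ∈ l, z ≤ r.eval a := by
  induction l with
  | nil => simp [bigInf]
  | cons r l ih =>
    have : bigInf (r :: l) t = inf r (bigInf l t) := rfl
    rw [this]
    simp only [eval, le_inf_iff, ih, List.forall_mem_cons]
    tauto

theorem bigSup_le {ι : Type} {L : Type u} [Lattice L] (a : ι → L) (l : List (LTerm ι))
    (t : LTerm ι) (z : L) :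
    (bigSup l t).eval a ≤ z ↔ t.eval a ≤ z ∧ ∀ r ∈ l, r.eval a ≤ z := by
  induction l with
  | nil => simp [bigSup]
  | cons r l ih =>
    have : bigSup (r :: l) t = sup r (bigSup l t) := rfl
    rw [this]
    simp only [eval, sup_le_iff, ih, List.forall_mem_cons]
    tauto

/-- `y ∧ ⋀_{i < j ≤ N} (x_i ∨ x_j)` -/
def lhs (N : ℕ) : LTerm ℕ :=
  bigInf ((List.range (N + 1)).flatMap (fun j => (List.range j).map
    (fun i => sup (var (i + 1)) (var (j + 1))))) (var 0)

/-- `⋁_{i ≤ N} (y ∧ x_i)` -/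
def rhs (N : ℕ) : LTerm ℕ :=
  bigSup ((List.range (N + 1)).map (fun i => inf (var 0) (var (i + 1)))) (inf (var 0) (var 1))

theorem le_lhs {L : Type u} [Lattice L] (N : ℕ) (a : ℕ → L) (z : L) :
    z ≤ (lhs N).eval a ↔ z ≤ a 0 ∧ ∀ i j, i < j → j ≤ N → z ≤ a (i + 1) ⊔ a (j + 1) := by
  unfold lhs
  rw [le_bigInf]
  simp only [eval, List.mem_flatMap, List.mem_map, List.mem_range]
  constructor
  · rintro ⟨h0, h⟩
    refine ⟨h0, fun i j hij hj => ?_⟩
    exact h (sup (var (i + 1)) (var (j + 1))) ⟨j, by omega, i, hij, rfl⟩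
  · rintro ⟨h0, h⟩
    refine ⟨h0, ?_⟩
    rintro r ⟨j, hj, i, hij, rfl⟩
    exact h i j hij (by omega)

theorem rhs_le {L : Type u} [Lattice L] (N : ℕ) (a : ℕ → L) (z : L) :
    (rhs N).eval a ≤ z ↔ ∀ i, i ≤ N → a 0 ⊓ a (i + 1) ≤ z := by
  unfold rhs
  rw [bigSup_le]
  simp only [eval, List.mem_map, List.mem_range]
  constructor
  · rintro ⟨_, h⟩ i hi
    exact h (inf (var 0) (var (i + 1))) ⟨i, by omega, rfl⟩
  · intro h
    refine ⟨h 0 (Nat.zero_le _), ?_⟩
    rintro r ⟨i, hi, rfl⟩
    exact h i (by omega)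

/-- The identity `lhs ∧ rhs ≈ lhs` holds in every lattice with at most `N` elements. -/
theorem pigeonhole {M : Type u} [Lattice M] [Finite M] (N : ℕ) (hN : Nat.card M ≤ N) :
    HoldsIn M (inf (lhs N) (rhs N)) (lhs N) := by
  intro a
  simp only [eval]
  apply inf_eq_left.2
  have hle := (le_lhs N a ((lhs N).eval a)).1 le_rfl
  have hrhs := (rhs_le N a ((rhs N).eval a)).1 le_rfl
  -- two of the variables have the same value
  have hnot : ¬ Function.Injective (fun i : Fin (N + 1) => a (i + 1)) := by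
    intro hinj
    have := Nat.card_le_card_of_injective _ hinj
    rw [Nat.card_eq_fintype_card, Fintype.card_fin] at this
    omega
  have : ∃ i j : ℕ, i < j ∧ j ≤ N ∧ a (i + 1) = a (j + 1) := by
    simp only [Function.Injective, not_forall] at hnot
    obtain ⟨i, j, hij, hne⟩ := hnot
    have hne' : (i : ℕ) ≠ j := fun h => hne (Fin.ext h)
    rcases lt_or_gt_of_ne hne' with h | h
    · exact ⟨i, j, h, by omega, hij⟩
    · exact ⟨j, i, h, by omega, hij.symm⟩
  obtain ⟨i, j, hij, hj, heq⟩ := this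
  have h1 := hle.2 i j hij hj
  rw [← heq, sup_idem] at h1
  exact (le_inf hle.1 h1).trans (hrhs i (by omega))

/-! ### A lattice in which the pigeonhole identities fail -/

/-- The lattice of height two with atoms indexed by `ι`. -/
inductive Flat (ι : Type) : Type
  | bot : Flat ι
  | atom : ι → Flat ι
  | top : Flat ι

namespace Flat

variable {ι : Type} [DecidableEq ι]

instance : Lattice (Flat ι) where
  le
    | bot, _ => True
    | _, top => True
    | atom i, atom j => i = j
    | _, _ => False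
  sup
    | bot, y => y
    | x, bot => x
    | atom i, atom j => if i = j then atom i else top
    | _, _ => top
  inf
    | top, y => y
    | x, top => x
    | atom i, atom j => if i = j then atom i else bot
    | _, _ => bot
  le_refl x := by cases x <;> trivial
  le_trans x y z := by
    cases x <;> cases y <;> cases z <;> simp_all
  le_antisymm x y := by
    cases x <;> cases y <;> simp_all
  le_sup_left x y := by
    cases x <;> cases y <;> simp
    split_ifs <;> simp_all
  le_sup_right x y := by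
    cases x <;> cases y <;> simp
    split_ifs <;> simp_all
  sup_le x y z := by
    cases x <;> cases y <;> cases z <;> simp_all
    split_ifs
    all_goals trivial
  inf_le_left x y := by
    cases x <;> cases y <;> simp
    split_ifs <;> simp_all
  inf_le_right x y := by
    cases x <;> cases y <;> simp
    split_ifs <;> simp_all
  le_inf x y z := by
    cases x <;> cases y <;> cases z <;> simp_all

end Flat

theorem flat_fails (N : ℕ) : ¬ HoldsIn (Flat ℕ) (inf (lhs N) (rhs N)) (lhs N) := by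
  intro h
  have h1 := h (fun k => Flat.atom k)
  simp only [eval] at h1
  have h2 := inf_eq_left.1 h1
  have h3 : Flat.atom 0 ≤ (lhs N).eval (fun k => Flat.atom k) := by
    rw [le_lhs]
    refine ⟨le_rfl, fun i j hij _ => ?_⟩
    have hne : ¬ (i + 1 = j + 1) := by omega
    have : (Flat.atom (i + 1) ⊔ Flat.atom (j + 1) : Flat ℕ) = Flat.top := if_neg hne
    rw [this]
    trivial
  have h4 : (rhs N).eval (fun k => Flat.atom k) ≤ (Flat.bot : Flat ℕ) := by
    rw [rhs_le]
    intro i _
    have hne : ¬ (0 = i + 1) := by omega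
    have : (Flat.atom 0 ⊓ Flat.atom (i + 1) : Flat ℕ) = Flat.bot := if_neg hne
    rw [this]
  exact (h3.trans (h2.trans h4) : (Flat.atom 0 : Flat ℕ) ≤ Flat.bot)

/-! ### The positive part of a diagonal sublattice -/

section parts

variable {L : Type u} [Lattice L] {K : Type v} [Lattice K]

/-- the order relation as a sublattice of the square -/
def leSub (L : Type u) [Lattice L] : Sublattice (L × L) where
  carrier := {p | p.1 ≤ p.2}
  supClosed' := fun _ hp _ hq => sup_le_sup hp hq
  infClosed' := fun _ hp _ hq => inf_le_inf hp hq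

/-- the reverse order relation as a sublattice of the square -/
def geSub (L : Type u) [Lattice L] : Sublattice (L × L) where
  carrier := {p | p.2 ≤ p.1}
  supClosed' := fun _ hp _ hq => sup_le_sup hp hq
  infClosed' := fun _ hp _ hq => inf_le_inf hp hq

/-- the positive part -/
def plus (S : Diag L) : Sublattice (L × L) := S.1 ⊓ leSub L

/-- the negative part -/
def minus (S : Diag L) : Sublattice (L × L) := S.1 ⊓ geSub L

theorem plus_sup (S T : Diag L) : plus (S ⊔ T) = plus S ⊔ plus T := by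
  set A := plus S ⊔ plus T with hA
  set B := minus S ⊔ minus T with hB
  have hAd : ∀ x : L, (x, x) ∈ A := fun x =>
    (le_sup_left : plus S ≤ A) ⟨S.2 x, le_refl x⟩
  have hBd : ∀ x : L, (x, x) ∈ B := fun x =>
    (le_sup_left : minus S ≤ B) ⟨S.2 x, le_refl x⟩
  let C : Sublattice (L × L) :=
    { carrier := {p | (p.1, p.1 ⊔ p.2) ∈ A ∧ (p.1 ⊔ p.2, p.2) ∈ B}
      supClosed' := by
        rintro ⟨x, y⟩ ⟨h1, h2⟩ ⟨z, w⟩ ⟨h3, h4⟩
        constructor
        · have := A.sup_mem h1 h3
          have e : (x ⊔ z, (x ⊔ z) ⊔ (y ⊔ w)) = (x, x ⊔ y) ⊔ (z, z ⊔ w) := by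
            apply Prod.ext
            · rfl
            · exact (sup_sup_sup_comm x y z w).symm
          show (x ⊔ z, (x ⊔ z) ⊔ (y ⊔ w)) ∈ A
          rw [e]
          exact this
        · have := B.sup_mem h2 h4
          have e : ((x ⊔ z) ⊔ (y ⊔ w), y ⊔ w) = (x ⊔ y, y) ⊔ (z ⊔ w, w) := by
            apply Prod.ext
            · exact (sup_sup_sup_comm x y z w).symm
            · rfl
          show ((x ⊔ z) ⊔ (y ⊔ w), y ⊔ w) ∈ B
          rw [e]
          exact this
      infClosed' := by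
        rintro ⟨x, y⟩ ⟨h1, h2⟩ ⟨z, w⟩ ⟨h3, h4⟩
        have hle : (x ⊓ z) ⊔ (y ⊓ w) ≤ (x ⊔ y) ⊓ (z ⊔ w) :=
          sup_le (inf_le_inf le_sup_left le_sup_left) (inf_le_inf le_sup_right le_sup_right)
        constructor
        · have := A.inf_mem (A.inf_mem h1 h3) (hAd ((x ⊓ z) ⊔ (y ⊓ w)))
          have e : (x ⊓ z, (x ⊓ z) ⊔ (y ⊓ w)) =
              ((x, x ⊔ y) ⊓ (z, z ⊔ w)) ⊓ ((x ⊓ z) ⊔ (y ⊓ w), (x ⊓ z) ⊔ (y ⊓ w)) := by
            apply Prod.ext
            · exact (inf_eq_left.2 le_sup_left).symm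
            · exact (inf_eq_right.2 hle).symm
          show (x ⊓ z, (x ⊓ z) ⊔ (y ⊓ w)) ∈ A
          rw [e]
          exact this
        · have := B.inf_mem (B.inf_mem h2 h4) (hBd ((x ⊓ z) ⊔ (y ⊓ w)))
          have e : ((x ⊓ z) ⊔ (y ⊓ w), y ⊓ w) =
              ((x ⊔ y, y) ⊓ (z ⊔ w, w)) ⊓ ((x ⊓ z) ⊔ (y ⊓ w), (x ⊓ z) ⊔ (y ⊓ w)) := by
            apply Prod.ext
            · exact (inf_eq_right.2 hle).symm
            · exact (inf_eq_left.2 le_sup_right).symm
          show ((x ⊓ z) ⊔ (y ⊓ w), y ⊓ w) ∈ B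
          rw [e]
          exact this }
  have key : ∀ R : Diag L, ∀ p ∈ R.1, (p.1, p.1 ⊔ p.2) ∈ plus R ∧ (p.1 ⊔ p.2, p.2) ∈ minus R := by
    rintro R ⟨x, y⟩ hp
    refine ⟨⟨?_, le_sup_left⟩, ⟨?_, le_sup_right⟩⟩
    · have := R.1.sup_mem (R.2 x) hp
      have e : (x, x ⊔ y) = (x, x) ⊔ (x, y) := Prod.ext (sup_idem x).symm rfl
      show (x, x ⊔ y) ∈ R.1
      rw [e]
      exact this
    · have := R.1.sup_mem hp (R.2 y)
      have e : (x ⊔ y, y) = (x, y) ⊔ (y, y) := Prod.ext rfl (sup_idem y).symm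
      show (x ⊔ y, y) ∈ R.1
      rw [e]
      exact this
  have hC : (S ⊔ T).1 ≤ C := by
    show S.1 ⊔ T.1 ≤ C
    apply sup_le
    · intro p hp
      exact ⟨(le_sup_left : plus S ≤ A) (key S p hp).1, (le_sup_left : minus S ≤ B) (key S p hp).2⟩
    · intro p hp
      exact ⟨(le_sup_right : plus T ≤ A) (key T p hp).1,
        (le_sup_right : minus T ≤ B) (key T p hp).2⟩
  apply le_antisymm
  · rintro ⟨x, y⟩ ⟨h1, h2⟩
    have h3 : (x, x ⊔ y) ∈ A := (hC h1).1
    have h4 : x ⊔ y = y := sup_eq_right.2 h2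
    rwa [h4] at h3
  · refine sup_le (inf_le_inf_right _ ?_) (inf_le_inf_right _ ?_)
    · exact (le_sup_left : S.1 ≤ S.1 ⊔ T.1)
    · exact (le_sup_right : T.1 ≤ S.1 ⊔ T.1)

/-- the product homomorphism -/
def prodHom (α β : LatticeHom L K) : LatticeHom (L × L) (K × K) where
  toFun p := (α p.1, β p.2)
  map_sup' p q := by simp
  map_inf' p q := by simp

/-- The key computation. -/
theorem trick (α β : LatticeHom L K) (S Y : Sublattice (L × L)) (hS : ∀ x : L, (x, x) ∈ S)
    (hY : ∀ x : L, (x, x) ∈ Y) {x y u v : L} (hxy : x ≤ y) (huv : u ≤ v) (h1 : (x, y) ∈ Y)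
    (h2 : (u, v) ∈ S) (hα : α u = α x) (hβ : β v = β y) :
    ∃ a b, a ≤ b ∧ (a, b) ∈ Y ∧ (a, b) ∈ S ∧ α a = α x ∧ β b = β y := by
  have hab : (x ⊓ v) ⊔ (u ⊓ y) ≤ y ⊓ v :=
    sup_le (inf_le_inf_right v hxy) (by rw [inf_comm u y]; exact inf_le_inf_left y huv)
  refine ⟨(x ⊓ v) ⊔ (u ⊓ y), y ⊓ v, hab, ?_, ?_, ?_, ?_⟩
  · have := Y.sup_mem (Y.inf_mem h1 (hY v)) (hY ((x ⊓ v) ⊔ (u ⊓ y)))
    have e : ((x ⊓ v) ⊔ (u ⊓ y), y ⊓ v) =
        ((x, y) ⊓ (v, v)) ⊔ ((x ⊓ v) ⊔ (u ⊓ y), (x ⊓ v) ⊔ (u ⊓ y)) := by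
      apply Prod.ext
      · exact (sup_eq_right.2 le_sup_left).symm
      · exact (sup_eq_left.2 hab).symm
    rw [e]
    exact this
  · have := S.sup_mem (S.inf_mem h2 (hS y)) (hS ((x ⊓ v) ⊔ (u ⊓ y)))
    have e : ((x ⊓ v) ⊔ (u ⊓ y), y ⊓ v) =
        ((u, v) ⊓ (y, y)) ⊔ ((x ⊓ v) ⊔ (u ⊓ y), (x ⊓ v) ⊔ (u ⊓ y)) := by
      apply Prod.ext
      · exact (sup_eq_right.2 le_sup_right).symm
      · show y ⊓ v = (v ⊓ y) ⊔ _
        rw [inf_comm v y]
        exact (sup_eq_left.2 hab).symm
    rw [e]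
    exact this
  · rw [map_sup, map_inf, map_inf, hα]
    have e1 : α x ≤ α v := by rw [← hα]; exact OrderHomClass.mono α huv
    have e2 : α x ≤ α y := OrderHomClass.mono α hxy
    rw [inf_eq_left.2 e1, inf_eq_left.2 e2, sup_idem]
  · rw [map_inf, hβ, inf_idem]

/-- The homomorphisms from `Δ(L)` to `Sub(K × K)`. -/
def phi (α β : LatticeHom L K) : LatticeHom (Diag L) (Sublattice (K × K)) where
  toFun S := (plus S).map (prodHom α β)
  map_sup' S T := by rw [plus_sup, Sublattice.map_sup]
  map_inf' S T := by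
    apply le_antisymm
    · apply le_inf
      · apply Sublattice.map_mono
        exact inf_le_inf_right _ (inf_le_left : S.1 ⊓ T.1 ≤ S.1)
      · apply Sublattice.map_mono
        exact inf_le_inf_right _ (inf_le_right : S.1 ⊓ T.1 ≤ T.1)
    · rintro q ⟨⟨⟨x, y⟩, ⟨h1, h2⟩, rfl⟩, ⟨⟨w, z⟩, ⟨h3, h4⟩, h5⟩⟩
      have hα : α w = α x := congrArg Prod.fst h5
      have hβ : β z = β y := congrArg Prod.snd h5
      obtain ⟨a, b, hab, ha, hb, ea, eb⟩ := trick α β T.1 S.1 T.2 S.2 h2 h4 h1 h3 hα hβ
      exact ⟨(a, b), ⟨⟨ha, hb⟩, hab⟩, Prod.ext ea eb⟩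

/-- exchange of the coordinates -/
def swapHom (L : Type u) [Lattice L] : LatticeHom (L × L) (L × L) where
  toFun p := (p.2, p.1)
  map_sup' _ _ := rfl
  map_inf' _ _ := rfl

theorem swapHom_injective : Function.Injective (swapHom L) := by
  rintro ⟨a, b⟩ ⟨c, d⟩ h
  have h1 : b = d := congrArg Prod.fst h
  have h2 : a = c := congrArg Prod.snd h
  rw [h1, h2]

/-- the converse relation -/
def dswap (L : Type u) [Lattice L] : LatticeHom (Diag L) (Diag L) where
  toFun S := ⟨S.1.map (swapHom L), fun x => ⟨(x, x), S.2 x, rfl⟩⟩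
  map_sup' S T := Subtype.ext (Sublattice.map_sup (swapHom L) S.1 T.1)
  map_inf' S T := Subtype.ext (Sublattice.map_inf S.1 T.1 (swapHom L) swapHom_injective)

theorem mem_dswap (S : Diag L) (x y : L) : (x, y) ∈ (dswap L S).1 ↔ (y, x) ∈ S.1 := by
  constructor
  · rintro ⟨⟨a, b⟩, h1, h2⟩
    have e1 : b = x := congrArg Prod.fst h2
    have e2 : a = y := congrArg Prod.snd h2
    rw [← e1, ← e2]
    exact h1
  · intro h
    exact ⟨(y, x), h, rfl⟩

theorem le_of_parts (S T : Diag L) (h1 : plus S ≤ plus T)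
    (h2 : plus (dswap L S) ≤ plus (dswap L T)) : S ≤ T := by
  rintro ⟨x, y⟩ hp
  have k1 : (x, x ⊔ y) ∈ T.1 := by
    have h3 : (x, x ⊔ y) ∈ S.1 := by
      have := S.1.sup_mem (S.2 x) hp
      have e : (x, x ⊔ y) = (x, x) ⊔ (x, y) := Prod.ext (sup_idem x).symm rfl
      rw [e]
      exact this
    exact (h1 ⟨h3, le_sup_left⟩).1
  have k2 : (x ⊔ y, y) ∈ T.1 := by
    have h3 : (x ⊔ y, y) ∈ S.1 := by
      have := S.1.sup_mem hp (S.2 y)
      have e : (x ⊔ y, y) = (x, y) ⊔ (y, y) := Prod.ext rfl (sup_idem y).symm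
      rw [e]
      exact this
    have h4 : (y, x ⊔ y) ∈ plus (dswap L S) := ⟨(mem_dswap S _ _).2 h3, le_sup_right⟩
    exact (mem_dswap T _ _).1 (h2 h4).1
  have := T.1.inf_mem k1 k2
  have e : (x, y) = (x, x ⊔ y) ⊓ (x ⊔ y, y) :=
    Prod.ext (inf_eq_left.2 le_sup_left).symm (inf_eq_right.2 le_sup_right).symm
  rw [e]
  exact this

/-- The homomorphisms `phi` separate positive parts for sublattices of finite powers. -/
theorem plus_le_of_phi {I : Type w} [Finite I] [Nonempty I] (ev : I → LatticeHom L K)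
    (hev : ∀ x y : L, (∀ i, ev i x = ev i y) → x = y) (S T : Diag L)
    (h : ∀ i j, phi (ev i) (ev j) S ≤ phi (ev i) (ev j) T) : plus S ≤ plus T := by
  classical
  have := Fintype.ofFinite I
  rintro ⟨x, y⟩ ⟨hp, hxy⟩
  have hxy' : x ≤ y := hxy
  refine ⟨?_, hxy⟩
  have step0 : ∀ i j, ∃ a b, (a, b) ∈ T.1 ∧ x ≤ a ∧ a ≤ b ∧ b ≤ y ∧ ev i a = ev i x ∧
      ev j b = ev j y := by
    intro i j
    obtain ⟨⟨w, z⟩, ⟨h1, h2⟩, h3⟩ := h i j ⟨(x, y), ⟨hp, hxy⟩, rfl⟩
    have hw : ev i w = ev i x := congrArg Prod.fst h3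
    have hz : ev j z = ev j y := congrArg Prod.snd h3
    refine ⟨(x ⊔ w) ⊓ y, (x ⊔ z) ⊓ y, ?_, ?_, ?_, inf_le_right, ?_, ?_⟩
    · exact T.1.inf_mem (T.1.sup_mem (T.2 x) h1) (T.2 y)
    · exact le_inf le_sup_left hxy'
    · exact inf_le_inf_right y (sup_le_sup_left h2 x)
    · rw [map_inf, map_sup, hw, sup_idem]
      exact inf_eq_left.2 (OrderHomClass.mono (ev i) hxy')
    · rw [map_inf, map_sup, hz, sup_eq_right.2 (OrderHomClass.mono (ev j) hxy'), inf_idem]
  have step1 : ∀ i, ∀ J : Finset I, ∃ a b, (a, b) ∈ T.1 ∧ x ≤ a ∧ a ≤ b ∧ b ≤ y ∧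
      ev i a = ev i x ∧ ∀ j ∈ J, ev j b = ev j y := by
    intro i J
    induction J using Finset.induction_on with
    | empty =>
      exact ⟨x, x, T.2 x, le_rfl, le_rfl, hxy', rfl, fun j hj => absurd hj (Finset.notMem_empty j)⟩
    | insert j J hj ih =>
      obtain ⟨a, b, h1, h2, h3, h4, h5, h6⟩ := ih
      obtain ⟨c, d, k1, k2, k3, k4, k5, k6⟩ := step0 i j
      refine ⟨a ⊔ c, b ⊔ d, T.1.sup_mem h1 k1, h2.trans le_sup_left, sup_le_sup h3 k3,
        sup_le h4 k4, by rw [map_sup, h5, k5, sup_idem], ?_⟩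
      intro l hl
      rcases Finset.mem_insert.1 hl with rfl | hl
      · rw [map_sup, k6]
        exact sup_eq_right.2 (OrderHomClass.mono (ev l) h4)
      · rw [map_sup, h6 l hl]
        exact sup_eq_left.2 (OrderHomClass.mono (ev l) k4)
  have step2 : ∀ i, ∃ a, (a, y) ∈ T.1 ∧ x ≤ a ∧ a ≤ y ∧ ev i a = ev i x := by
    intro i
    obtain ⟨a, b, h1, h2, h3, h4, h5, h6⟩ := step1 i Finset.univ
    have hb : b = y := hev b y fun j => h6 j (Finset.mem_univ j)
    subst hb
    exact ⟨a, h1, h2, h3, h5⟩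
  have step3 : ∀ J : Finset I, ∃ a, (a, y) ∈ T.1 ∧ x ≤ a ∧ ∀ i ∈ J, ev i a = ev i x := by
    intro J
    induction J using Finset.induction_on with
    | empty => exact ⟨y, T.2 y, hxy', fun j hj => absurd hj (Finset.notMem_empty j)⟩
    | insert j J hj ih =>
      obtain ⟨a, h1, h2, h3⟩ := ih
      obtain ⟨c, k1, k2, _, k4⟩ := step2 j
      have := T.1.inf_mem h1 k1
      have e : (a ⊓ c, y) = (a, y) ⊓ (c, y) := Prod.ext rfl (inf_idem y).symm
      refine ⟨a ⊓ c, by rw [e]; exact this, le_inf h2 k2, ?_⟩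
      intro l hl
      rcases Finset.mem_insert.1 hl with rfl | hl
      · rw [map_inf, k4]
        exact inf_eq_right.2 (OrderHomClass.mono (ev l) h2)
      · rw [map_inf, h3 l hl]
        exact inf_eq_left.2 (OrderHomClass.mono (ev l) k2)
  obtain ⟨a, h1, _, h3⟩ := step3 Finset.univ
  have ha : a = x := hev a x fun i => h3 i (Finset.mem_univ i)
  rw [← ha]
  exact h1

/-- The image homomorphism induced by a surjective homomorphism. -/
def image (π : LatticeHom L K) (hπ : Function.Surjective π) : LatticeHom (Diag L) (Diag K) where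
  toFun S := ⟨S.1.map (prodHom π π), fun x => by
    obtain ⟨a, rfl⟩ := hπ x
    exact ⟨(a, a), S.2 a, rfl⟩⟩
  map_sup' S T := Subtype.ext (Sublattice.map_sup (prodHom π π) S.1 T.1)
  map_inf' S T := by
    apply Subtype.ext
    show (S.1 ⊓ T.1).map (prodHom π π) = S.1.map (prodHom π π) ⊓ T.1.map (prodHom π π)
    apply le_antisymm (Sublattice.map_inf_le _ _ _)
    rintro q ⟨⟨⟨x, y⟩, h1, rfl⟩, ⟨⟨w, z⟩, h3, h5⟩⟩
    have e1 : π w = π x := congrArg Prod.fst h5
    have e2 : π z = π y := congrArg Prod.snd h5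
    -- positive part
    obtain ⟨a, b, _, ha, hb, ea, eb⟩ := trick π π T.1 S.1 T.2 S.2
      (x := x) (y := x ⊔ y) (u := w) (v := w ⊔ z) le_sup_left le_sup_left
      (by
        have := S.1.sup_mem (S.2 x) h1
        have e : (x, x ⊔ y) = (x, x) ⊔ (x, y) := Prod.ext (sup_idem x).symm rfl
        rw [e]; exact this)
      (by
        have := T.1.sup_mem (T.2 w) h3
        have e : (w, w ⊔ z) = (w, w) ⊔ (w, z) := Prod.ext (sup_idem w).symm rfl
        rw [e]; exact this)
      e1 (by rw [map_sup, map_sup, e1, e2])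
    -- negative part
    obtain ⟨c, d, _, hc, hd, ec, ed⟩ := trick π π (T.1.comap (swapHom L)) (S.1.comap (swapHom L))
      T.2 S.2
      (x := y) (y := x ⊔ y) (u := z) (v := w ⊔ z) le_sup_right le_sup_right
      (by
        have := S.1.sup_mem h1 (S.2 y)
        have e : (x ⊔ y, y) = (x, y) ⊔ (y, y) := Prod.ext rfl (sup_idem y).symm
        show (x ⊔ y, y) ∈ S.1
        rw [e]; exact this)
      (by
        have := T.1.sup_mem h3 (T.2 z)
        have e : (w ⊔ z, z) = (w, z) ⊔ (z, z) := Prod.ext rfl (sup_idem z).symm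
        show (w ⊔ z, z) ∈ T.1
        rw [e]; exact this)
      e2 (by rw [map_sup, map_sup, e1, e2])
    have hc' : (d, c) ∈ S.1 := hc
    have hd' : (d, c) ∈ T.1 := hd
    refine ⟨(a, b) ⊓ (d, c), ⟨S.1.inf_mem ha hc', T.1.inf_mem hb hd'⟩, ?_⟩
    show (π (a ⊓ d), π (b ⊓ c)) = (π x, π y)
    apply Prod.ext
    · show π (a ⊓ d) = π x
      rw [map_inf, ea, ed, ← map_inf, inf_eq_left.2 le_sup_left]
    · show π (b ⊓ c) = π y
      rw [map_inf, eb, ec, ← map_inf, inf_eq_right.2 le_sup_right]

theorem image_surjective (π : LatticeHom L K) (hπ : Function.Surjective π) :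
    Function.Surjective (image π hπ) := by
  intro T
  refine ⟨⟨T.1.comap (prodHom π π), fun x => T.2 (π x)⟩, ?_⟩
  apply Subtype.ext
  show (T.1.comap (prodHom π π)).map (prodHom π π) = T.1
  apply le_antisymm
  · rintro q ⟨p, hp, rfl⟩
    exact hp
  · rintro ⟨a, b⟩ hab
    obtain ⟨x, rfl⟩ := hπ a
    obtain ⟨y, rfl⟩ := hπ b
    exact ⟨(x, y), hab, rfl⟩

end parts

/-! ### Finitely generated lattices in the variety -/

section generated

variable {L : Type u} [Lattice L] {n : ℕ}

/-- the lattice of `n`-ary term functions of `K` -/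
def termFun (K : Type v) [Lattice K] (n : ℕ) : Sublattice ((Fin n → K) → K) where
  carrier := {f | ∃ t : LTerm (Fin n), ∀ a, f a = t.eval a}
  supClosed' := by
    rintro f ⟨s, hs⟩ g ⟨t, ht⟩
    exact ⟨sup s t, fun a => by simp only [Pi.sup_apply, hs, ht, eval]⟩
  infClosed' := by
    rintro f ⟨s, hs⟩ g ⟨t, ht⟩
    exact ⟨inf s t, fun a => by simp only [Pi.inf_apply, hs, ht, eval]⟩

/-- the sublattice generated by `g` -/
def termSub (g : Fin n → L) : Sublattice L where
  carrier := {z | ∃ t : LTerm (Fin n), z = t.eval g}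
  supClosed' := by
    rintro f ⟨s, hs⟩ h ⟨t, ht⟩
    exact ⟨sup s t, by simp only [hs, ht, eval]⟩
  infClosed' := by
    rintro f ⟨s, hs⟩ h ⟨t, ht⟩
    exact ⟨inf s t, by simp only [hs, ht, eval]⟩

theorem eval_eq_of_identity {K : Type v} [Lattice K] (hL : InVariety (identitiesOf K) L)
    (g : Fin n → L) (s t : LTerm (Fin n)) (h : ∀ a : Fin n → K, s.eval a = t.eval a) :
    s.eval g = t.eval g := by
  have h1 : (s.rename Fin.val, t.rename Fin.val) ∈ identitiesOf K := by
    intro a
    show (s.rename Fin.val).eval a = (t.rename Fin.val).eval a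
    rw [eval_rename, eval_rename]
    exact h _
  have h2 := hL _ h1 (fun k => if hk : k < n then g ⟨k, hk⟩ else s.eval g)
  simp only [eval_rename, Fin.is_lt, dite_true, Fin.eta] at h2
  exact h2

/-- the canonical homomorphism from term functions to the generated sublattice -/
noncomputable def canon {K : Type v} [Lattice K] (hL : InVariety (identitiesOf K) L)
    (g : Fin n → L) : LatticeHom (termFun K n) (termSub g) where
  toFun f := ⟨(Classical.choose f.2).eval g, Classical.choose f.2, rfl⟩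
  map_sup' f h := by
    apply Subtype.ext
    refine eval_eq_of_identity hL g _
      (sup (Classical.choose f.2) (Classical.choose h.2)) fun a => ?_
    rw [← Classical.choose_spec (f ⊔ h).2 a]
    simp only [eval]
    rw [← Classical.choose_spec f.2 a, ← Classical.choose_spec h.2 a]
    rfl
  map_inf' f h := by
    apply Subtype.ext
    refine eval_eq_of_identity hL g _
      (inf (Classical.choose f.2) (Classical.choose h.2)) fun a => ?_
    rw [← Classical.choose_spec (f ⊓ h).2 a]
    simp only [eval]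
    rw [← Classical.choose_spec f.2 a, ← Classical.choose_spec h.2 a]
    rfl

theorem canon_surjective {K : Type v} [Lattice K] (hL : InVariety (identitiesOf K) L)
    (g : Fin n → L) : Function.Surjective (canon hL g) := by
  rintro ⟨z, t, rfl⟩
  refine ⟨⟨fun a => t.eval a, t, fun _ => rfl⟩, ?_⟩
  apply Subtype.ext
  refine eval_eq_of_identity hL g _ _ fun a => ?_
  exact (Classical.choose_spec (⟨fun a => t.eval a, t, fun _ => rfl⟩ : termFun K n).2 a).symm

/-- evaluation of term functions -/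
def evHom (K : Type v) [Lattice K] (n : ℕ) (i : Fin n → K) : LatticeHom (termFun K n) K where
  toFun f := f.1 i
  map_sup' _ _ := rfl
  map_inf' _ _ := rfl

theorem holds_generated {K : Type v} [Lattice K] [Finite K] [Nonempty K]
    (hL : InVariety (identitiesOf K) L) (g : Fin n → L) {s t : LTerm ℕ}
    (h : HoldsIn (Sublattice (K × K)) s t) : HoldsIn (Diag (termSub g)) s t := by
  apply holdsIn_of_surjective (image (canon hL g) (canon_surjective hL g))
    (image_surjective _ _)
  have hev : ∀ x y : termFun K n, (∀ i, evHom K n i x = evHom K n i y) → x = y :=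
    fun x y hxy => Subtype.ext (funext hxy)
  apply holdsIn_of_separating (J := Bool × (Fin n → K) × (Fin n → K))
    (fun j => if j.1 = true then phi (evHom K n j.2.1) (evHom K n j.2.2)
      else (phi (evHom K n j.2.1) (evHom K n j.2.2)).comp (dswap _)) ?_ h
  intro S T hST
  have hp : ∀ i j, phi (evHom K n i) (evHom K n j) S = phi (evHom K n i) (evHom K n j) T :=
    fun i j => by simpa using hST (true, i, j)
  have hm : ∀ i j, phi (evHom K n i) (evHom K n j) (dswap _ S) =
      phi (evHom K n i) (evHom K n j) (dswap _ T) :=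
    fun i j => by simpa using hST (false, i, j)
  apply le_antisymm
  · exact le_of_parts S T (plus_le_of_phi (evHom K n) hev S T fun i j => (hp i j).le)
      (plus_le_of_phi (evHom K n) hev _ _ fun i j => (hm i j).le)
  · exact le_of_parts T S (plus_le_of_phi (evHom K n) hev T S fun i j => (hp i j).ge)
      (plus_le_of_phi (evHom K n) hev _ _ fun i j => (hm i j).ge)

end generated

/-! ### From finitely generated sublattices to the whole lattice -/

section globalization

variable {L : Type u} [Lattice L]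

/-- restriction to a sublattice -/
def res (L0 : Sublattice L) (S : Diag L) : Diag L0 :=
  ⟨S.1.comap (prodHom L0.subtype L0.subtype), fun x => S.2 x⟩

theorem res_le (L0 : Sublattice L) (S : ℕ → Diag L) (p : LTerm ℕ) :
    (p.eval (fun k => res L0 (S k))).1 ≤
      (p.eval S).1.comap (prodHom L0.subtype L0.subtype) := by
  induction p with
  | var k => exact le_rfl
  | sup p q hp hq =>
    show (p.eval (fun k => res L0 (S k))).1 ⊔ (q.eval (fun k => res L0 (S k))).1 ≤ _
    apply sup_le
    · exact hp.trans (Sublattice.comap_mono (le_sup_left : (p.eval S).1 ≤ _ ⊔ (q.eval S).1))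
    · exact hq.trans (Sublattice.comap_mono (le_sup_right : (q.eval S).1 ≤ (p.eval S).1 ⊔ _))
  | inf p q hp hq =>
    intro z hz
    exact ⟨hp hz.1, hq hz.2⟩

/-- `z` belongs to the relation obtained by evaluating `p` in `L0` -/
def InRes (L0 : Sublattice L) (S : ℕ → Diag L) (p : LTerm ℕ) (z : L × L) : Prop :=
  ∃ (h1 : z.1 ∈ L0) (h2 : z.2 ∈ L0),
    ((⟨z.1, h1⟩, ⟨z.2, h2⟩) : L0 × L0) ∈ (p.eval (fun k => res L0 (S k))).1

theorem exists_finite (S : ℕ → Diag L) (p : LTerm ℕ) (z : L × L) (hz : z ∈ (p.eval S).1) :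
    ∃ X : Set L, X.Finite ∧ ∀ L0 : Sublattice L, X ⊆ L0 → InRes L0 S p z := by
  induction p generalizing z with
  | var k =>
    refine ⟨{z.1, z.2}, Set.toFinite _, fun L0 hL0 => ?_⟩
    exact ⟨hL0 (Or.inl rfl), hL0 (Or.inr rfl), hz⟩
  | sup p q hp hq =>
    let C : Sublattice (L × L) :=
      { carrier := {z | ∃ X : Set L, X.Finite ∧ ∀ L0 : Sublattice L, X ⊆ L0 →
          InRes L0 S (sup p q) z}
        supClosed' := by
          rintro x ⟨X, hX, h1⟩ y ⟨Y, hY, h2⟩
          refine ⟨X ∪ Y, hX.union hY, fun L0 hL0 => ?_⟩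
          obtain ⟨a1, a2, a3⟩ := h1 L0 fun w hw => hL0 (Or.inl hw)
          obtain ⟨b1, b2, b3⟩ := h2 L0 fun w hw => hL0 (Or.inr hw)
          exact ⟨L0.sup_mem a1 b1, L0.sup_mem a2 b2, Sublattice.sup_mem a3 b3⟩
        infClosed' := by
          rintro x ⟨X, hX, h1⟩ y ⟨Y, hY, h2⟩
          refine ⟨X ∪ Y, hX.union hY, fun L0 hL0 => ?_⟩
          obtain ⟨a1, a2, a3⟩ := h1 L0 fun w hw => hL0 (Or.inl hw)
          obtain ⟨b1, b2, b3⟩ := h2 L0 fun w hw => hL0 (Or.inr hw)
          exact ⟨L0.inf_mem a1 b1, L0.inf_mem a2 b2, Sublattice.inf_mem a3 b3⟩ }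
    have hC : (p.eval S).1 ⊔ (q.eval S).1 ≤ C := by
      apply sup_le
      · intro x hx
        obtain ⟨X, hX, h⟩ := hp x hx
        refine ⟨X, hX, fun L0 hL0 => ?_⟩
        obtain ⟨a1, a2, a3⟩ := h L0 hL0
        exact ⟨a1, a2, (le_sup_left : (p.eval (fun k => res L0 (S k))).1 ≤
          _ ⊔ (q.eval (fun k => res L0 (S k))).1) a3⟩
      · intro x hx
        obtain ⟨X, hX, h⟩ := hq x hx
        refine ⟨X, hX, fun L0 hL0 => ?_⟩
        obtain ⟨a1, a2, a3⟩ := h L0 hL0
        exact ⟨a1, a2, (le_sup_right : (q.eval (fun k => res L0 (S k))).1 ≤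
          (p.eval (fun k => res L0 (S k))).1 ⊔ _) a3⟩
    exact hC hz
  | inf p q hp hq =>
    obtain ⟨X, hX, h1⟩ := hp z hz.1
    obtain ⟨Y, hY, h2⟩ := hq z hz.2
    refine ⟨X ∪ Y, hX.union hY, fun L0 hL0 => ?_⟩
    obtain ⟨a1, a2, a3⟩ := h1 L0 fun w hw => hL0 (Or.inl hw)
    obtain ⟨b1, b2, b3⟩ := h2 L0 fun w hw => hL0 (Or.inr hw)
    exact ⟨a1, a2, ⟨a3, b3⟩⟩

theorem holds_of_generated {s t : LTerm ℕ}
    (h : ∀ (n : ℕ) (g : Fin n → L), HoldsIn (Diag (termSub g)) s t) : HoldsIn (Diag L) s t := by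
  have key : ∀ s t : LTerm ℕ, (∀ (n : ℕ) (g : Fin n → L), HoldsIn (Diag (termSub g)) s t) →
      ∀ S : ℕ → Diag L, s.eval S ≤ t.eval S := by
    intro s t h S z hz
    obtain ⟨X, hX, hX'⟩ := exists_finite S s z hz
    obtain ⟨n, g, hg⟩ : ∃ (n : ℕ) (g : Fin n → L), X ⊆ Set.range g := by
      have : Fintype X := hX.fintype
      refine ⟨Fintype.card X, fun i => ((Fintype.equivFin X).symm i : L), ?_⟩
      intro x hx
      exact ⟨Fintype.equivFin X ⟨x, hx⟩, by simp⟩
    have hsub : X ⊆ termSub g := by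
      intro x hx
      obtain ⟨i, rfl⟩ := hg hx
      exact ⟨var i, rfl⟩
    obtain ⟨a1, a2, a3⟩ := hX' (termSub g) hsub
    rw [h n g] at a3
    exact res_le (termSub g) S t a3
  intro S
  exact le_antisymm (key s t h S) (key t s (fun n g a => (h n g a).symm) S)

end globalization

/-- Main statement for the variety generated by a finite lattice. -/
theorem main (K : Type) [Lattice K] [Finite K] [Nonempty K] :
    ∃ s t : LTerm ℕ, (∃ (M : Type) (_ : Lattice M), ¬ HoldsIn M s t) ∧
      ∀ (L : Type u) [Lattice L], InVariety (identitiesOf K) L → HoldsIn (Diag L) s t := by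
  have : Finite (Sublattice (K × K)) := Finite.of_injective _ SetLike.coe_injective
  refine ⟨inf (lhs (Nat.card (Sublattice (K × K)))) (rhs (Nat.card (Sublattice (K × K)))),
    lhs (Nat.card (Sublattice (K × K))), ⟨Flat ℕ, inferInstance, flat_fails _⟩, ?_⟩
  intro L _ hL
  exact holds_of_generated fun n g => holds_generated hL g (pigeonhole _ le_rfl)

instance : Finite (Flat (Fin 3)) := by
  have : Function.Surjective (fun x : Option (Option (Fin 3)) => match x with
    | none => Flat.bot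
    | some none => Flat.top
    | some (some i) => Flat.atom i) := by
    intro y
    cases y with
    | bot => exact ⟨none, rfl⟩
    | top => exact ⟨some none, rfl⟩
    | atom i => exact ⟨some (some i), rfl⟩
  exact Finite.of_surjective _ this

/-- **Theorem.**  The question has a negative answer: there is a nontrivial lattice variety
`V`, containing a nondistributive lattice, and a lattice identity that fails in some lattice
but holds in `Δ(L)` for every `L ∈ V`.  (By `main`, every variety generated by a finite lattice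
has the last property; here we use the variety generated by `M₃`.) -/
theorem result :
    ∃ E : Set (LTerm ℕ × LTerm ℕ),
      (∃ (L : Type) (_ : Lattice L), InVariety E L ∧ Nontrivial L) ∧
      (∃ (L : Type) (_ : Lattice L), InVariety E L ∧
        ¬ ∀ x y z : L, x ⊓ (y ⊔ z) = (x ⊓ y) ⊔ (x ⊓ z)) ∧
      ∃ s t : LTerm ℕ, (∃ (M : Type) (_ : Lattice M), ¬ HoldsIn M s t) ∧
        ∀ (L : Type u) [Lattice L], InVariety E L → HoldsIn (Diag L) s t := by
  refine ⟨identitiesOf (Flat (Fin 3)), ?_, ?_, ?_⟩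
  · exact ⟨Flat (Fin 3), inferInstance, fun e he => he, ⟨⟨Flat.bot, Flat.top, by simp⟩⟩⟩
  · refine ⟨Flat (Fin 3), inferInstance, fun e he => he, ?_⟩
    intro h
    have h1 := h (Flat.atom 0) (Flat.atom 1) (Flat.atom 2)
    have h2 : (Flat.atom 0 : Flat (Fin 3)) = Flat.bot := h1
    cases h2
  · have : Nonempty (Flat (Fin 3)) := ⟨Flat.bot⟩
    exact main (Flat (Fin 3))

end Pool.Agent.Results.MP_bb8c7b_al.DiagonalSublattices
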